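import Pool.Agent.H309LP.Bridge

/-!
# `L^p` crossed products have no representations on `ℓ^q` and on Hilbert spaces

Let `F^p(ℤ, X, h)` be the full `L^p` crossed product by a minimal homeomorphism of an infinite
compact metric space. It has no nonzero continuous homomorphism to the operators on a Banach space
isomorphic to a closed subspace of `ℓ^q`, `q ≠ p`, nor, if `p ≠ 2`, to the operators on a space
isomorphic to an inner product space, nor to `F^q(ℤ, X₂, h₂)` and `F^q_r(ℤ, X₂, h₂)` for an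
arbitrary homeomorphism `h₂` of a compact metric space.
-/

set_option autoImplicit false

open MeasureTheory Filter Topology
open scoped ENNReal

namespace Pool.Agent.Results.MP_5d4768_an.SequenceAndHilbertSpaces

open H309LP.Stmt H309LP

/-! ### Definitions used in the statement -/

section Defs

variable {X : Type} [TopologicalSpace X] [CompactSpace X]

/-- `h` is minimal: all orbits are dense. -/
def IsMinimalHomeo (h : X ≃ₜ X) : Prop := ∀ x, Dense (Set.range fun n : ℤ => (h ^ n : X ≃ₜ X) x)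

/-- The Banach algebra `F^p(ℤ, X, h)` exists. -/
def HasFull (p : ℝ≥0∞) [Fact (1 ≤ p)] (h : X ≃ₜ X) : Prop :=
  ∃ (B : Type) (_ : NormedRing B) (_ : NormedAlgebra ℂ B) (j : (ℤ →₀ C(X, ℂ)) →ₗ[ℂ] B),
    IsFullCP p h j

/-- The Banach algebra `F^p_r(ℤ, X, h)` exists. -/
def HasRed (p : ℝ≥0∞) [Fact (1 ≤ p)] (h : X ≃ₜ X) : Prop :=
  ∃ (B : Type) (_ : NormedRing B) (_ : NormedAlgebra ℂ B) (j : (ℤ →₀ C(X, ℂ)) →ₗ[ℂ] B),
    IsRedCP p h j

/-- Every continuous homomorphism from the normed algebra `B` to the normed algebra `A` is zero. -/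
def NoHom (B A : Type) [NormedRing B] [NormedAlgebra ℂ B] [NormedRing A] [NormedAlgebra ℂ A] :
    Prop :=
  ∀ φ : B →ₙₐ[ℂ] A, Continuous φ → φ = 0

variable (B : Type) [NormedRing B] [NormedAlgebra ℂ B]

/-- Every continuous homomorphism from `B` to the bounded operators on `E` is zero. -/
def NoRep (E : Type) [NormedAddCommGroup E] [NormedSpace ℂ E] : Prop := NoHom B (E →L[ℂ] E)

/-- `E` is isomorphic to a subspace of `ℓ^q(ℤ)`: there are a linear map `J` from `E` to the scalar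
sequences and `c, C > 0` such that `∑ |J x n|^q < ∞` and `c ‖x‖ ≤ (∑ |J x n|^q)^(1/q) ≤ C ‖x‖` for
all `x`. (The subspace is closed if `E` is complete.) -/
def EmbedsInEll (q : ℝ≥0∞) (E : Type) [NormedAddCommGroup E] [NormedSpace ℂ E] : Prop :=
  ∃ (J : E →ₗ[ℂ] (ℤ → ℂ)) (c C : ℝ), 0 < c ∧ 0 < C ∧ ∀ x,
    Summable (fun n => ‖J x n‖ ^ q.toReal) ∧ c * ‖x‖ ≤ ellNorm q (J x) ∧ ellNorm q (J x) ≤ C * ‖x‖

/-- Every continuous homomorphism from `B` to the bounded operators on a Banach space `E`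
isomorphic to a subspace of `ℓ^q(ℤ)` is zero. -/
def NoEllRep (q : ℝ≥0∞) : Prop :=
  ∀ (E : Type) [NormedAddCommGroup E] [NormedSpace ℂ E] [CompleteSpace E],
    EmbedsInEll q E → NoRep B E

/-- Every continuous homomorphism from `B` to the bounded operators on a normed space `E`
isomorphic to an inner product space `H` is zero. -/
def NoHilbertRep : Prop :=
  ∀ (H : Type) [NormedAddCommGroup H] [InnerProductSpace ℂ H] (E : Type) [NormedAddCommGroup E]
    [NormedSpace ℂ E], (E ≃L[ℂ] H) → NoRep B E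

/-- Every continuous homomorphism from `B` to `F^q(ℤ, X, h)` or to `F^q_r(ℤ, X, h)` is zero. -/
def NoHomTo (q : ℝ≥0∞) [Fact (1 ≤ q)] (h : X ≃ₜ X) : Prop :=
  ∀ (B₂ : Type) [NormedRing B₂] [NormedAlgebra ℂ B₂] (j₂ : (ℤ →₀ C(X, ℂ)) →ₗ[ℂ] B₂),
    (IsFullCP q h j₂ ∨ IsRedCP q h j₂) → NoHom B B₂

end Defs

/-! ### Proofs -/

section Proofs

variable {X : Type} [MetricSpace X] [CompactSpace X] {h : X ≃ₜ X} {p : ℝ≥0∞} [Fact (1 ≤ p)]
variable {B : Type} [NormedRing B] [NormedAlgebra ℂ B] {j : (ℤ →₀ C(X, ℂ)) →ₗ[ℂ] B}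

/-- the unit of a model -/
lemma model_one (hj : IsFullCP p h j) : j (Finsupp.single 0 1) = 1 := by
  obtain ⟨hc, hmul, hnorm, hdense⟩ := hj
  have h1 : ∀ z : B, j (Finsupp.single 0 1) * z = z := by
    intro z
    have hcl : IsClosed {z : B | j (Finsupp.single 0 1) * z = z} :=
      isClosed_eq (continuous_const.mul continuous_id) continuous_id
    refine hcl.closure_subset_iff.2 ?_ (hdense z)
    rintro _ ⟨a, rfl⟩
    change j _ * j a = j a
    rw [← hmul, conv_eq, Tw.mulHom_one_left]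
  have := h1 1
  rwa [mul_one] at this

/-- the action given by a continuous homomorphism of a model -/
lemma exists_act (hj : IsFullCP p h j) {E : Type} [NormedAddCommGroup E] [NormedSpace ℂ E]
    (φ : B →ₙₐ[ℂ] (E →L[ℂ] E)) (hφ : Continuous φ) : ∃ A : Act h p E, A.P 1 = φ 1 := by
  obtain ⟨C, hC, hb⟩ : ∃ C : ℝ, 0 < C ∧ ∀ z, ‖φ z‖ ≤ C * ‖z‖ := by
    let L : B →L[ℂ] (E →L[ℂ] E) :=
      ⟨{ toFun := φ, map_add' := map_add φ, map_smul' := fun c z => map_smul φ c z }, hφ⟩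
    exact ⟨‖L‖ + 1, by positivity, fun z => (L.le_opNorm z).trans
      (mul_le_mul_of_nonneg_right (by linarith) (norm_nonneg z))⟩
  have hone := model_one hj
  obtain ⟨hc, hmul, hnorm, hdense⟩ := hj
  let ψ : Cc h →ₙₐ[ℂ] (E →L[ℂ] E) :=
    { toFun := fun a => φ (j (show ℤ →₀ C(X, ℂ) from a))
      map_smul' := fun c a => by
        have e : j (show ℤ →₀ C(X, ℂ) from (c • a : Cc h)) =
          c • j (show ℤ →₀ C(X, ℂ) from a) := map_smul j c (show ℤ →₀ C(X, ℂ) from a)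
        rw [e]
        exact map_smul φ c _
      map_zero' := by
        have e : j (show ℤ →₀ C(X, ℂ) from (0 : Cc h)) = 0 := map_zero j
        rw [e, map_zero]
      map_add' := fun a b => by
        have e : j (show ℤ →₀ C(X, ℂ) from (a + b : Cc h)) =
          j (show ℤ →₀ C(X, ℂ) from a) + j (show ℤ →₀ C(X, ℂ) from b) := map_add j _ _
        rw [e, map_add]
      map_mul' := fun a b => by
        have e : j (show ℤ →₀ C(X, ℂ) from (a * b : Cc h)) =
          j (show ℤ →₀ C(X, ℂ) from a) * j (show ℤ →₀ C(X, ℂ) from b) := by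
          rw [← hmul, conv_eq]; rfl
        rw [e, map_mul] }
  refine ⟨{ ψ := ψ, C := C, C_pos := hC, bound := fun a => ?_ }, ?_⟩
  · have e : ‖j (show ℤ →₀ C(X, ℂ) from a)‖ = famNorm (fullFam p h) a := by
      rw [hnorm, fullNorm_eq]
    rw [← e]
    exact hb _
  · change φ (j (Finsupp.single 0 1)) = φ 1
    rw [hone]

/-- a homomorphism that kills the unit is zero -/
lemma eq_zero {E : Type} [NormedAddCommGroup E] [NormedSpace ℂ E] (φ : B →ₙₐ[ℂ] (E →L[ℂ] E))
    (h1 : φ 1 = 0) : φ = 0 := by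
  ext1 z
  have : φ z = φ 1 * φ z := by rw [← map_mul, one_mul]
  rw [this, h1, zero_mul]
  rfl

/-- conjugation with an isomorphism -/
noncomputable def conj {E F : Type} [NormedAddCommGroup E] [NormedSpace ℂ E] [NormedAddCommGroup F]
    [NormedSpace ℂ F] (e : E ≃L[ℂ] F) (φ : B →ₙₐ[ℂ] (E →L[ℂ] E)) : B →ₙₐ[ℂ] (F →L[ℂ] F) where
  toFun z := (e : E →L[ℂ] F) ∘L φ z ∘L (e.symm : F →L[ℂ] E)
  map_smul' c z := by
    rw [map_smul]
    ext x
    simp
  map_zero' := by
    rw [map_zero]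
    ext x
    simp
  map_add' a b := by
    rw [map_add]
    ext x
    simp
  map_mul' a b := by
    rw [map_mul]
    ext x
    simp

lemma conj_continuous {E F : Type} [NormedAddCommGroup E] [NormedSpace ℂ E] [NormedAddCommGroup F]
    [NormedSpace ℂ F] (e : E ≃L[ℂ] F) (φ : B →ₙₐ[ℂ] (E →L[ℂ] E)) (hφ : Continuous φ) :
    Continuous (conj e φ) :=
  continuous_const.clm_comp (hφ.clm_comp continuous_const)

lemma zero_of_conj {E F : Type} [NormedAddCommGroup E] [NormedSpace ℂ E] [NormedAddCommGroup F]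
    [NormedSpace ℂ F] (e : E ≃L[ℂ] F) (φ : B →ₙₐ[ℂ] (E →L[ℂ] E)) (h0 : conj e φ = 0) : φ = 0 := by
  ext z x
  have h1 : conj e φ z (e x) = 0 := by rw [h0]; rfl
  have h2 : e (φ z (e.symm (e x))) = 0 := h1
  rw [e.symm_apply_apply] at h2
  have h3 := congrArg e.symm h2
  rw [e.symm_apply_apply, map_zero] at h3
  exact h3

/-- closed subspaces of `ℓ^q` -/
theorem ell_case [Infinite X] (hp : p ≠ ∞)
    (hm : ∀ x, Dense (Set.range fun n : ℤ => (h ^ n : X ≃ₜ X) x)) (hj : IsFullCP p h j)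
    {q : ℝ≥0∞} [Fact (1 ≤ q)] (hq : q ≠ ∞) (hqp : q ≠ p) {E : Type} [NormedAddCommGroup E]
    [NormedSpace ℂ E] [CompleteSpace E] (hE : EmbedsInEll q E) (φ : B →ₙₐ[ℂ] (E →L[ℂ] E))
    (hφ : Continuous φ) : φ = 0 := by
  obtain ⟨J₀, c, C, hc0, hC0, hJ₀⟩ := hE
  have hmem : ∀ x, Memℓp (J₀ x) q := fun x => memℓp_gen (hJ₀ x).1
  have hnorm : ∀ x, ‖(⟨J₀ x, hmem x⟩ : lp (fun _ : ℤ => ℂ) q)‖ = ellNorm q (J₀ x) := fun x =>
    (ellNorm_eq hq (⟨J₀ x, hmem x⟩ : lp (fun _ : ℤ => ℂ) q)).symm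
  let J : E →L[ℂ] lp (fun _ : ℤ => ℂ) q := LinearMap.mkContinuous
    { toFun := fun x => ⟨J₀ x, hmem x⟩
      map_add' := fun x y => Subtype.ext (map_add J₀ x y)
      map_smul' := fun a x => Subtype.ext (map_smul J₀ a x) } C
    (fun x => (hnorm x).trans_le (hJ₀ x).2.2)
  have hJc : ∀ x, c * ‖x‖ ≤ ‖J x‖ := fun x => (hJ₀ x).2.1.trans_eq (hnorm x).symm
  have hal : AntilipschitzWith (c⁻¹).toNNReal J := by
    refine AddMonoidHomClass.antilipschitz_of_bound J fun x => ?_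
    rw [Real.coe_toNNReal _ (inv_pos.2 hc0).le, inv_mul_eq_div, le_div_iff₀ hc0, mul_comm]
    exact hJc x
  have hJ : Function.Injective J := hal.injective
  have hcl : IsClosed (Set.range J) := hal.isClosed_range J.uniformContinuous
  let e := J.equivRange hJ hcl
  apply zero_of_conj e
  apply eq_zero
  obtain ⟨A, hA⟩ := exists_act hj (conj e φ) (conj_continuous e φ hφ)
  rw [← hA]
  have hc : CompleteSpace (LinearMap.range (J : E →ₗ[ℂ] lp (fun _ : ℤ => ℂ) q)) :=
    IsClosed.completeSpace_coe (hs := hcl)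
  exact A.ell_zero hp (LinearMap.range (J : E →ₗ[ℂ] lp (fun _ : ℤ => ℂ) q)).subtypeₗᵢ hq hqp.symm hm

/-- Hilbert spaces -/
theorem hilbert_case [Infinite X] (hp : p ≠ ∞) (hp2 : p ≠ 2)
    (hm : ∀ x, Dense (Set.range fun n : ℤ => (h ^ n : X ≃ₜ X) x)) (hj : IsFullCP p h j)
    {H : Type} [NormedAddCommGroup H] [InnerProductSpace ℂ H] {E : Type} [NormedAddCommGroup E]
    [NormedSpace ℂ E] (e : E ≃L[ℂ] H) (φ : B →ₙₐ[ℂ] (E →L[ℂ] E)) (hφ : Continuous φ) : φ = 0 := by
  apply zero_of_conj e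
  apply eq_zero
  obtain ⟨A, hA⟩ := exists_act hj (conj e φ) (conj_continuous e φ hφ)
  rw [← hA]
  refine A.hilbert_zero hp hp2 (fun a b => ?_) hm
  have := parallelogram_law_with_norm ℂ a b
  nlinarith

end Proofs

/-- **`L^p` crossed products by minimal homeomorphisms and representations for other exponents.**
Let `p ∈ [1, ∞)` and let `h` be a minimal homeomorphism of an infinite compact metric space `X`. The
Banach algebra `F^p(ℤ, X, h)` exists. Let `B` be this algebra.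
1. For `q ∈ [1, ∞)`, `q ≠ p`, and every Banach space `E` isomorphic to a closed subspace of
   `ℓ^q(ℤ)`, every continuous homomorphism from `B` to the bounded operators on `E` is zero.
2. If `p ≠ 2`, then for every normed space `E` isomorphic to an inner product space (for instance
   every Hilbert space, separable or not) every continuous homomorphism from `B` to the bounded
   operators on `E` is zero.
3. For `q ∈ [1, ∞)`, `q ≠ p`, and every homeomorphism `h₂` (minimal or not) of a nonempty compact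
   metric space `X₂` (infinite or not), the algebras `F^q(ℤ, X₂, h₂)` and `F^q_r(ℤ, X₂, h₂)` exist
   and every continuous homomorphism from `B` to one of them is zero. -/
theorem result (p : ℝ≥0∞) [Fact (1 ≤ p)] (hp : p ≠ ∞) (X : Type) [MetricSpace X] [CompactSpace X]
    [Infinite X] (h : X ≃ₜ X) (hm : IsMinimalHomeo h) :
    HasFull p h ∧
    ∀ (B : Type) [NormedRing B] [NormedAlgebra ℂ B] (j : (ℤ →₀ C(X, ℂ)) →ₗ[ℂ] B),
      IsFullCP p h j →
      (∀ (q : ℝ≥0∞) [Fact (1 ≤ q)], q ≠ ∞ → q ≠ p → NoEllRep B q) ∧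
      (p ≠ 2 → NoHilbertRep B) ∧
      (∀ (q : ℝ≥0∞) [Fact (1 ≤ q)], q ≠ ∞ → q ≠ p →
        ∀ (X₂ : Type) [MetricSpace X₂] [CompactSpace X₂] [Nonempty X₂] (h₂ : X₂ ≃ₜ X₂),
          HasFull q h₂ ∧ HasRed q h₂ ∧ NoHomTo B q h₂) :=
  ⟨exists_isFull p h, fun _ _ _ j hj =>
    ⟨fun _ _ hq hqp _ _ _ _ hE φ hφ => ell_case hp hm hj hq hqp hE φ hφ,
      fun hp2 _ _ _ _ _ _ e φ hφ => hilbert_case hp hp2 hm hj e φ hφ,
      fun q _ hq hqp _ _ _ _ h₂ => ⟨exists_isFull q h₂, exists_isReduced q hq h₂,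
        fun _ _ _ j₂ H₂ φ hφ => final_zero hp hq hqp.symm hm j j₂ hj H₂ φ hφ⟩⟩⟩

end Pool.Agent.Results.MP_5d4768_an.SequenceAndHilbertSpaces
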